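import Mathlib
import Pool.Agent.H581R.FF.TLIM

/-! A general form of the limit construction: if `κ`-systems can be moved so that a given vector is
almost generated by the images of the letters in `ι`, then there is a cyclic `ι`-system. -/

namespace Pool.Agent.H146R2.FI

open Pool.Agent.H581R.FF
open Pool.Agent.H581R.FF.TLIM (cost cost_nonneg ev_apply dist_ev exists_image cyc_of_delta)
open Pool.Agent.H667R2.FG (Ell permOp lam rho delta LG EltG tau)
open scoped ComplexConjugate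
open Filter Topology

theorem std_comp {ι κ G : Type} [Group G] (j : FreeGroup ι →* FreeGroup κ)
    (hj : Function.Injective j) (π : FreeGroup κ →* unitary (Op G))
    (h : Std π) : Std (π.comp j) where
  comm := fun w g => h.comm (j w) g
  free := fun w hw => h.free (j w) fun h0 => hw (hj (by rw [h0, map_one]))

/-- a state of the construction -/
def St (κ G : Type) [Group G] : Type :=
  {p : (FreeGroup κ →* unitary (Op G)) × ℝ // Std p.1 ∧ Cyc p.1 ∧ 0 < p.2}

/-- the absorption hypothesis -/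
def Absorb {ι κ : Type} (G : Type) [Group G] (j : FreeGroup ι →* FreeGroup κ) : Prop :=
  ∀ π : FreeGroup κ →* unitary (Op G), Std π → Cyc π → ∀ (ξ : Ell G) (ε : ℝ), 0 < ε →
    ∃ (π' : FreeGroup κ →* unitary (Op G)) (f' : GR ι), Std π' ∧ Cyc π' ∧
      (∀ i : ι, ‖((π' (j (FreeGroup.of i)) : Op G) - (π (j (FreeGroup.of i)) : Op G))
        (delta 1)‖ ≤ ε) ∧
      ‖ξ - ev (π'.comp j) f' (delta 1)‖ ≤ ε

theorem step {ι κ G : Type} [Group G] [DecidableEq ι] (j : FreeGroup ι →* FreeGroup κ)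
    (H : Absorb G j) (s : St κ G) (ξ : Ell G) (η : ℝ) (hη : 0 < η) :
    ∃ (s' : St κ G) (f' : GR ι),
      (∀ z : ι, ‖((s'.1.1 (j (FreeGroup.of z)) : Op G) -
        (s.1.1 (j (FreeGroup.of z)) : Op G)) (delta 1)‖ ≤ s.1.2) ∧
      s'.1.2 ≤ s.1.2 / 2 ∧ cost f' * s'.1.2 ≤ η ∧
      ‖ξ - ev (s'.1.1.comp j) f' (delta 1)‖ ≤ η := by
  obtain ⟨⟨π, e0⟩, hS, hC, he0⟩ := s
  simp only at hS hC he0 ⊢
  obtain ⟨π', f', hS', hC', h1, h2⟩ := H π hS hC ξ (min e0 η) (lt_min he0 hη)
  have hcf' := cost_nonneg f'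
  refine ⟨⟨(π', min (e0 / 2) (η / (cost f' + 1))), hS', hC', lt_min (by linarith)
    (by positivity)⟩, f', ?_, ?_, ?_, ?_⟩
  · intro z
    exact (h1 z).trans (min_le_left _ _)
  · exact min_le_left _ _
  · show cost f' * min (e0 / 2) (η / (cost f' + 1)) ≤ η
    have h1 : min (e0 / 2) (η / (cost f' + 1)) ≤ η / (cost f' + 1) := min_le_right _ _
    have h2 : 0 < min (e0 / 2) (η / (cost f' + 1)) := lt_min (by linarith) (by positivity)
    rw [le_div_iff₀ (by positivity)] at h1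
    nlinarith
  · exact h2.trans (min_le_right _ _)

theorem lim_gen (hSL : S_SLIM) (hW : S_WDIST) {ι κ G : Type} [Group G] [Countable G]
    (j : FreeGroup ι →* FreeGroup κ) (hj : Function.Injective j) (H : Absorb G j)
    (h0 : ∃ π : FreeGroup κ →* unitary (Op G), Std π ∧ Cyc π) :
    ∃ σ : FreeGroup ι →* unitary (Op G), Std σ ∧ Cyc σ := by
  classical
  obtain ⟨π0, hS0, hC0⟩ := h0
  obtain ⟨en, hen⟩ := exists_surjective_nat G
  choose nx ff h1 h2 h3 h4 using fun (s : St κ G) (ξ : Ell G) (n : ℕ) =>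
    step j H s ξ ((1 / 2 : ℝ) ^ n) (by positivity)
  let ξ : ℕ → Ell G := fun n => delta (en n.unpair.1)
  let s : ℕ → St κ G := fun n => Nat.rec ⟨(π0, 1), hS0, hC0, one_pos⟩
    (fun n s => nx s (ξ n) n) n
  have hs : ∀ n, s (n + 1) = nx (s n) (ξ n) n := fun n => rfl
  let F : ℕ → GR ι := fun n => ff (s n) (ξ n) n
  have hpos : ∀ n, 0 < (s n).1.2 := fun n => (s n).2.2.2
  have g1 : ∀ n (z : ι), ‖(((s (n + 1)).1.1 (j (FreeGroup.of z)) : Op G) -
        ((s n).1.1 (j (FreeGroup.of z)) : Op G)) (delta 1)‖ ≤ (s n).1.2 :=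
    fun n z => h1 (s n) (ξ n) n z
  have g2 : ∀ n, (s (n + 1)).1.2 ≤ (s n).1.2 / 2 := fun n => h2 (s n) (ξ n) n
  have g3 : ∀ n, cost (F n) * (s (n + 1)).1.2 ≤ (1 / 2 : ℝ) ^ n := fun n => h3 (s n) (ξ n) n
  have g4 : ∀ n, ‖ξ n - ev ((s (n + 1)).1.1.comp j) (F n) (delta 1)‖ ≤ (1 / 2 : ℝ) ^ n :=
    fun n => h4 (s n) (ξ n) n
  have gk : ∀ n k, (s (n + k)).1.2 ≤ (s n).1.2 / 2 ^ k := by
    intro n k
    induction k with
    | zero => simp
    | succ k ih =>
      have := g2 (n + k)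
      rw [← add_assoc]
      calc (s (n + k + 1)).1.2 ≤ (s (n + k)).1.2 / 2 := this
        _ ≤ (s n).1.2 / 2 ^ k / 2 := by linarith
        _ = (s n).1.2 / 2 ^ (k + 1) := by rw [pow_succ, div_div]
  have hdist : ∀ (z : ι) (n k : ℕ),
      dist ((((s (n + k)).1.1.comp j) (FreeGroup.of z) : Op G) (delta 1))
        ((((s (n + (k + 1))).1.1.comp j) (FreeGroup.of z) : Op G) (delta 1)) ≤
        (2 * (s n).1.2) / 2 / 2 ^ k := by
    intro z n k
    rw [dist_comm, dist_eq_norm]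
    have e1 : ∀ π : FreeGroup κ →* unitary (Op G),
        (π.comp j) (FreeGroup.of z) = π (j (FreeGroup.of z)) := by
      intro π; rfl
    rw [e1, e1, ← ContinuousLinearMap.sub_apply]
    have := (g1 (n + k) z).trans (gk n k)
    rw [mul_div_cancel_left₀ _ (by norm_num : (2:ℝ) ≠ 0)]
    exact this
  obtain ⟨σ, hσ, hlim⟩ := hSL ι G (fun n => (s n).1.1.comp j) (fun n => std_comp j hj _ (s n).2.1)
    (by
      intro z
      refine cauchySeq_of_le_geometric_two (C := 2 * (s 0).1.2) fun n => ?_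
      have := hdist z 0 n
      simpa using this)
  refine ⟨σ, hσ, cyc_of_delta σ ?_⟩
  have htail : ∀ (z : ι) (n : ℕ), ‖((((s n).1.1.comp j) (FreeGroup.of z) : Op G) -
      (σ (FreeGroup.of z) : Op G)) (delta 1)‖ ≤ 2 * (s n).1.2 := by
    intro z n
    rw [ContinuousLinearMap.sub_apply, ← dist_eq_norm]
    have ht : Tendsto (fun k => (((s (n + k)).1.1.comp j) (FreeGroup.of z) : Op G) (delta 1))
        atTop (𝓝 ((σ (FreeGroup.of z) : Op G) (delta 1))) := by
      have h := hlim (FreeGroup.of z)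
      have h' := h.comp (tendsto_add_atTop_nat n)
      refine h'.congr fun k => ?_
      simp only [Function.comp_apply]
      rw [add_comm k n]
    have := dist_le_of_le_geometric_two_of_tendsto₀ (C := 2 * (s n).1.2)
      (f := fun k => (((s (n + k)).1.1.comp j) (FreeGroup.of z) : Op G) (delta 1))
      (fun k => hdist z n k) ht
    simpa using this
  intro g ε hε
  obtain ⟨k, hk⟩ := hen g
  obtain ⟨m, hm⟩ := exists_pow_lt_of_lt_one (show (0:ℝ) < ε / 3 by positivity)
    (show (1 / 2 : ℝ) < 1 by norm_num)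
  set n := Nat.pair k m with hn
  have hmn : m ≤ n := Nat.right_le_pair k m
  have hξ : ξ n = delta g := by
    show delta (en n.unpair.1) = delta g
    rw [hn, Nat.unpair_pair, hk]
  have hpow : (1 / 2 : ℝ) ^ n < ε / 3 :=
    lt_of_le_of_lt (pow_le_pow_of_le_one (by norm_num) (by norm_num) hmn) hm
  refine ⟨F n, ?_⟩
  have hA := g4 n
  rw [hξ] at hA
  have hB := dist_ev hW ((s (n + 1)).1.1.comp j) σ (2 * (s (n + 1)).1.2)
    (std_comp j hj _ (s (n + 1)).2.1).comm hσ.comm (fun z => htail z (n + 1)) (F n)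
  have hB2 : cost (F n) * (2 * (s (n + 1)).1.2) ≤ 2 * (1 / 2 : ℝ) ^ n := by
    have := g3 n
    linarith
  calc ‖delta g - ev σ (F n) (delta 1)‖
      = ‖(delta g - ev ((s (n + 1)).1.1.comp j) (F n) (delta 1)) +
        (ev ((s (n + 1)).1.1.comp j) (F n) (delta 1) - ev σ (F n) (delta 1))‖ := by
        congr 1; abel
    _ ≤ (1 / 2 : ℝ) ^ n + 2 * (1 / 2 : ℝ) ^ n :=
        (norm_add_le _ _).trans (add_le_add hA (hB.trans hB2))
    _ < ε := by linarith

end Pool.Agent.H146R2.FI
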