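import Mathlib
import Pool.Agent.H581R.FF.Final
import Pool.Agent.H146R2.FI.Lim

/-! Absorption of infinitely many letters: `L(F_n)` and `L(F_∞)` are spatially isomorphic for
`n ≥ 2`. -/

namespace Pool.Agent.H146R2.FI

open Pool.Agent.H581R.FF
open Pool.Agent.H581R.FF.TLIM (cost cost_nonneg ev_apply dist_ev exists_image cyc_of_delta)
open Pool.Agent.H667R2.FG (Ell permOp lam rho delta LG EltG tau)
open scoped ComplexConjugate

section transport
variable {κ κ' G : Type} [Group G]

theorem std_congr (e : FreeGroup κ ≃* FreeGroup κ') (π : FreeGroup κ' →* unitary (Op G))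
    (h : Std π) : Std (π.comp e.toMonoidHom) :=
  std_comp e.toMonoidHom e.injective π h

theorem cyc_congr (e : FreeGroup κ ≃* FreeGroup κ') (π : FreeGroup κ' →* unitary (Op G))
    (h : Cyc π) : Cyc (π.comp e.toMonoidHom) := by
  intro ξ ε hε
  obtain ⟨f, hf⟩ := h ξ ε hε
  obtain ⟨f', hf'⟩ := exists_image e.symm.toMonoidHom (π.comp e.toMonoidHom) f
  refine ⟨f', ?_⟩
  rw [hf']
  have h1 : (π.comp e.toMonoidHom).comp e.symm.toMonoidHom = π := by
    ext w
    simp
  rw [h1]
  exact hf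

end transport

section
variable {ι G : Type} [Group G]

/-- the letters of `ι` -/
noncomputable abbrev jl {ι : Type} : FreeGroup ι →* FreeGroup (ι ⊕ ℕ) := FreeGroup.map Sum.inl

theorem jl_injective : Function.Injective (jl : FreeGroup ι →* FreeGroup (ι ⊕ ℕ)) :=
  FreeGroup.map_injective Sum.inl_injective

/-- absorption of one letter -/
theorem absorb1 (a u : ι) (hau : a ≠ u) (j : ℕ) (π : FreeGroup (ι ⊕ ℕ) →* unitary (Op G))
    (hS : Std π) (hC : Cyc π) (ε : ℝ) (hε : 0 < ε) :
    ∃ (π' : FreeGroup (ι ⊕ ℕ) →* unitary (Op G)) (g : FreeGroup ι), Std π' ∧ Cyc π' ∧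
      (∀ i : ι, i ≠ u → π' (FreeGroup.of (Sum.inl i)) = π (FreeGroup.of (Sum.inl i))) ∧
      (∀ k : ℕ, k ≠ j → π' (FreeGroup.of (Sum.inr k)) = π (FreeGroup.of (Sum.inr k))) ∧
      ‖((π' (FreeGroup.of (Sum.inl u)) : Op G) - (π (FreeGroup.of (Sum.inl u)) : Op G))
        (delta 1)‖ < ε ∧
      ‖((π' (jl g) : Op G) - (π (FreeGroup.of (Sum.inr j)) : Op G)) (delta 1)‖ < ε := by
  classical
  let ι' : Type := {z : ι ⊕ ℕ // z ≠ Sum.inr j}
  let e : Option ι' ≃ ι ⊕ ℕ := Equiv.optionSubtypeNe (Sum.inr j)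
  have enone : e none = Sum.inr j := rfl
  have esome : ∀ z : ι', e (some z) = z.1 := fun z => rfl
  let E : FreeGroup (Option ι') ≃* FreeGroup (ι ⊕ ℕ) := FreeGroup.freeGroupCongr e
  have Eof : ∀ z, E (FreeGroup.of z) = FreeGroup.of (e z) := fun z => FreeGroup.map.of
  have Esof : ∀ z, E.symm (FreeGroup.of (e z)) = FreeGroup.of z := by
    intro z
    rw [← Eof, MulEquiv.symm_apply_apply]
  let m : ι → ι' := fun i => ⟨Sum.inl i, by simp⟩
  have hm : ∀ i, e (some (m i)) = Sum.inl i := fun i => rfl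
  have hmau : m a ≠ m u := by
    intro h
    exact hau (Sum.inl_injective (congrArg Subtype.val h))
  obtain ⟨ρ, g, h1, h2, h3, h4, h5, h6⟩ := Final.stage2 ι' G (m a) (m u) hmau
    (π.comp E.toMonoidHom) (std_congr E π hS) (cyc_congr E π hC) ε hε
  have hg : ∃ g' : FreeGroup ι, FreeGroup.map m g' = g := by
    have hle : Subgroup.closure {FreeGroup.of (m a), FreeGroup.of (m a), FreeGroup.of (m u)} ≤
        (FreeGroup.map m).range := by
      rw [Subgroup.closure_le]
      intro z hz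
      simp only [Set.mem_insert_iff, Set.mem_singleton_iff] at hz
      rcases hz with rfl | rfl | rfl
      · exact ⟨FreeGroup.of a, FreeGroup.map.of⟩
      · exact ⟨FreeGroup.of a, FreeGroup.map.of⟩
      · exact ⟨FreeGroup.of u, FreeGroup.map.of⟩
    exact hle h3
  obtain ⟨g', rfl⟩ := hg
  have hv : ∀ z : Option ι', (ρ.comp E.symm.toMonoidHom) (FreeGroup.of (e z)) =
      ρ (FreeGroup.of z) := by
    intro z
    show ρ (E.symm (FreeGroup.of (e z))) = _
    rw [Esof]
  have hv' : ∀ z : Option ι', (π.comp E.toMonoidHom) (FreeGroup.of z) = π (FreeGroup.of (e z)) := by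
    intro z
    show π (E (FreeGroup.of z)) = _
    rw [Eof]
  refine ⟨ρ.comp E.symm.toMonoidHom, g', std_congr E.symm ρ h1, cyc_congr E.symm ρ h2,
    ?_, ?_, ?_, ?_⟩
  · intro i hi
    rw [← hm i, hv, ← hv']
    exact h4 (m i) (fun h => hi (Sum.inl_injective (congrArg Subtype.val h)))
  · intro k hk
    have hk' : (Sum.inr k : ι ⊕ ℕ) ≠ Sum.inr j := fun h => hk (Sum.inr_injective h)
    have e1 : (Sum.inr k : ι ⊕ ℕ) = e (some ⟨Sum.inr k, hk'⟩) := rfl
    rw [e1, hv, ← hv']
    refine h4 _ (fun h => ?_)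
    have := congrArg Subtype.val h
    simp [m] at this
  · rw [← hm u, hv, ← hv']
    exact h5
  · have e1 : (ρ.comp E.symm.toMonoidHom) (jl g') = ρ (jj (FreeGroup.map m g')) := by
      show ρ (E.symm (jl g')) = _
      congr 1
      rw [MulEquiv.symm_apply_eq]
      show FreeGroup.map Sum.inl g' = FreeGroup.map e (FreeGroup.map some (FreeGroup.map m g'))
      rw [FreeGroup.map.comp, FreeGroup.map.comp]
      rfl
    have e2 : (π.comp E.toMonoidHom) vv = π (FreeGroup.of (Sum.inr j)) := hv' none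
    rw [e1, ← e2]
    exact h6

/-- absorption of the first `r` letters -/
theorem absorbN (a u : ι) (hau : a ≠ u) (r : ℕ) :
    ∀ (π : FreeGroup (ι ⊕ ℕ) →* unitary (Op G)), Std π → Cyc π → ∀ ε : ℝ, 0 < ε →
    ∃ (π' : FreeGroup (ι ⊕ ℕ) →* unitary (Op G)) (g : ℕ → FreeGroup ι), Std π' ∧ Cyc π' ∧
      (∀ i : ι, i ≠ u → π' (FreeGroup.of (Sum.inl i)) = π (FreeGroup.of (Sum.inl i))) ∧
      (∀ k : ℕ, r ≤ k → π' (FreeGroup.of (Sum.inr k)) = π (FreeGroup.of (Sum.inr k))) ∧
      ‖((π' (FreeGroup.of (Sum.inl u)) : Op G) - (π (FreeGroup.of (Sum.inl u)) : Op G))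
        (delta 1)‖ < ε ∧
      ∀ k : ℕ, k < r →
      ‖((π' (jl (g k)) : Op G) - (π (FreeGroup.of (Sum.inr k)) : Op G)) (delta 1)‖ < ε := by
  classical
  induction r with
  | zero =>
    intro π hS hC ε hε
    refine ⟨π, fun _ => 1, hS, hC, fun _ _ => rfl, fun _ _ => rfl, ?_, fun k hk => ?_⟩
    · rw [sub_self, _root_.zero_apply, norm_zero]
      exact hε
    · omega
  | succ r ih =>
    intro π hS hC ε hε
    obtain ⟨π1, g, hS1, hC1, h1, h2, h3, h4⟩ := ih π hS hC (ε / 2) (by linarith)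
    set N : ℝ := ∑ k ∈ Finset.range r, ((g k).norm : ℝ) with hN
    have hN0 : 0 ≤ N := Finset.sum_nonneg fun _ _ => by positivity
    set δ : ℝ := ε / 2 / (N + 1) with hδ
    have hδ0 : 0 < δ := by positivity
    have hδ1 : δ ≤ ε / 2 := div_le_self (by linarith) (by linarith)
    have hδ2 : N * δ ≤ ε / 2 := by
      rw [hδ, mul_div_assoc', div_le_iff₀ (by linarith)]
      nlinarith
    obtain ⟨π2, h, hS2, hC2, p1, p2, p3, p4⟩ := absorb1 a u hau r π1 hS1 hC1 δ hδ0
    have hclose : ∀ i : ι, ‖((π1 (jl (FreeGroup.of i)) : Op G) -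
        (π2 (jl (FreeGroup.of i)) : Op G)) (delta 1)‖ ≤ δ := by
      intro i
      rw [show (jl (FreeGroup.of i) : FreeGroup (ι ⊕ ℕ)) = FreeGroup.of (Sum.inl i) from
        FreeGroup.map.of]
      by_cases hi : i = u
      · subst hi
        rw [← neg_sub, _root_.neg_apply, norm_neg]
        exact p3.le
      · rw [p1 i hi, sub_self, _root_.zero_apply, norm_zero]
        exact hδ0.le
    refine ⟨π2, fun k => if k = r then h else g k, hS2, hC2, ?_, ?_, ?_, ?_⟩
    · intro i hi
      rw [p1 i hi, h1 i hi]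
    · intro k hk
      rw [p2 k (by omega), h2 k (by omega)]
    · have e : ((π2 (FreeGroup.of (Sum.inl u)) : Op G) - (π (FreeGroup.of (Sum.inl u)) : Op G)) =
          ((π2 (FreeGroup.of (Sum.inl u)) : Op G) - (π1 (FreeGroup.of (Sum.inl u)) : Op G)) +
          ((π1 (FreeGroup.of (Sum.inl u)) : Op G) - (π (FreeGroup.of (Sum.inl u)) : Op G)) := by
        abel
      rw [e, _root_.add_apply]
      refine (norm_add_le _ _).trans_lt ?_
      linarith
    · intro k hk
      by_cases hkr : k = r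
      · subst hkr
        show ‖((π2 (jl (if k = k then h else g k)) : Op G) -
          (π (FreeGroup.of (Sum.inr k)) : Op G)) (delta 1)‖ < ε
        rw [if_pos rfl, ← h2 k le_rfl]
        exact p4.trans_le (hδ1.trans (by linarith))
      · show ‖((π2 (jl (if k = r then h else g k)) : Op G) -
          (π (FreeGroup.of (Sum.inr k)) : Op G)) (delta 1)‖ < ε
        rw [if_neg hkr]
        have hkr' : k < r := by omega
        have hd := TWDIST.t_WDIST ι G (π1.comp jl) (π2.comp jl) δ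
          (fun w g' => hS1.comm (jl w) g') (fun w g' => hS2.comm (jl w) g') hclose (g k)
        have hd1 : ‖((π2 (jl (g k)) : Op G) - (π1 (jl (g k)) : Op G)) (delta 1)‖ ≤ ε / 2 := by
          rw [← neg_sub, _root_.neg_apply, norm_neg]
          refine le_trans hd ((mul_le_mul_of_nonneg_right ?_ hδ0.le).trans hδ2)
          exact Finset.single_le_sum (f := fun k => ((g k).norm : ℝ)) (fun _ _ => by positivity)
            (Finset.mem_range.2 hkr')
        have e : ((π2 (jl (g k)) : Op G) - (π (FreeGroup.of (Sum.inr k)) : Op G)) =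
            ((π2 (jl (g k)) : Op G) - (π1 (jl (g k)) : Op G)) +
            ((π1 (jl (g k)) : Op G) - (π (FreeGroup.of (Sum.inr k)) : Op G)) := by
          abel
        rw [e, _root_.add_apply]
        refine (norm_add_le _ _).trans_lt ?_
        have := h4 k hkr'
        linarith

/-- the retraction onto the words in `ι` and the first `r` letters -/
noncomputable def ret (ι : Type) (r : ℕ) : FreeGroup (ι ⊕ ℕ) →* FreeGroup (ι ⊕ ℕ) :=
  FreeGroup.lift fun z => match z with
    | Sum.inl i => FreeGroup.of (Sum.inl i)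
    | Sum.inr k => if k < r then FreeGroup.of (Sum.inr k) else 1

theorem ret_inl (r : ℕ) (i : ι) : ret ι r (FreeGroup.of (Sum.inl i)) = FreeGroup.of (Sum.inl i) :=
  FreeGroup.lift_apply_of

theorem ret_inr (r k : ℕ) : ret ι r (FreeGroup.of (Sum.inr k)) =
    if k < r then FreeGroup.of (Sum.inr k) else 1 :=
  FreeGroup.lift_apply_of

theorem ret_eventually (w : FreeGroup (ι ⊕ ℕ)) : ∃ r0, ∀ r, r0 ≤ r → ret ι r w = w := by
  induction w using FreeGroup.induction_on with
  | C1 => exact ⟨0, fun r _ => map_one _⟩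
  | of z =>
    rcases z with i | k
    · exact ⟨0, fun r _ => ret_inl r i⟩
    · exact ⟨k + 1, fun r hr => by
        show ret ι r (FreeGroup.of (Sum.inr k)) = FreeGroup.of (Sum.inr k)
        rw [ret_inr, if_pos (by omega)]⟩
  | inv_of z ih =>
    obtain ⟨r0, h⟩ := ih
    exact ⟨r0, fun r hr => by rw [map_inv, h r hr]⟩
  | mul x y hx hy =>
    obtain ⟨r0, h⟩ := hx
    obtain ⟨r1, h'⟩ := hy
    exact ⟨max r0 r1, fun r hr => by
      rw [map_mul, h r (le_trans (le_max_left _ _) hr), h' r (le_trans (le_max_right _ _) hr)]⟩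

theorem exists_ret (f : GR (ι ⊕ ℕ)) : ∃ r, ∀ w ∈ f.coeff.support, ret ι r w = w := by
  classical
  choose r0 h using ret_eventually (ι := ι)
  refine ⟨∑ w ∈ f.coeff.support, r0 w, fun w hw => h w _ ?_⟩
  exact Finset.single_le_sum (fun _ _ => Nat.zero_le _) hw

theorem ev_ret (π : FreeGroup (ι ⊕ ℕ) →* unitary (Op G)) (f : GR (ι ⊕ ℕ)) (r : ℕ)
    (h : ∀ w ∈ f.coeff.support, ret ι r w = w) (x : Ell G) :
    ev (π.comp (ret ι r)) f x = ev π f x := by
  rw [ev_apply, ev_apply]
  refine Finset.sum_congr rfl fun w hw => ?_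
  show _ • (π (ret ι r w) : Op G) x = _
  rw [h w hw]

theorem absorb (a u : ι) (hau : a ≠ u) : Absorb G (jl : FreeGroup ι →* FreeGroup (ι ⊕ ℕ)) := by
  classical
  intro π hS hC ξ ε hε
  obtain ⟨f, hf⟩ := hC ξ (ε / 2) (by linarith)
  obtain ⟨r, hr⟩ := exists_ret f
  have hcf := cost_nonneg f
  set δ := min ε (ε / (2 * (cost f + 1))) with hδ
  have hδ0 : 0 < δ := lt_min hε (by positivity)
  have hδ1 : δ ≤ ε := min_le_left _ _
  have hδ2 : cost f * δ ≤ ε / 2 := by
    have h1 : δ ≤ ε / (2 * (cost f + 1)) := min_le_right _ _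
    rw [le_div_iff₀ (by positivity)] at h1
    nlinarith
  obtain ⟨π', g, hS', hC', h1, h2, h3, h4⟩ := absorbN a u hau r π hS hC δ hδ0
  have jlof : ∀ i : ι, (jl (FreeGroup.of i) : FreeGroup (ι ⊕ ℕ)) = FreeGroup.of (Sum.inl i) :=
    fun i => FreeGroup.map.of
  have hclose : ∀ i : ι, ‖((π' (FreeGroup.of (Sum.inl i)) : Op G) -
      (π (FreeGroup.of (Sum.inl i)) : Op G)) (delta 1)‖ ≤ δ := by
    intro i
    by_cases hi : i = u
    · subst hi
      exact h3.le
    · rw [h1 i hi, sub_self, _root_.zero_apply, norm_zero]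
      exact hδ0.le
  let sg : FreeGroup (ι ⊕ ℕ) →* FreeGroup ι :=
    FreeGroup.lift fun z => match z with
      | Sum.inl i => FreeGroup.of i
      | Sum.inr k => g k
  have sgl : ∀ i, sg (FreeGroup.of (Sum.inl i)) = FreeGroup.of i := fun i =>
    FreeGroup.lift_apply_of
  have sgr : ∀ k, sg (FreeGroup.of (Sum.inr k)) = g k := fun i =>
    FreeGroup.lift_apply_of
  obtain ⟨f', hf'⟩ := exists_image (sg.comp (ret ι r)) (π'.comp jl) f
  refine ⟨π', f', hS', hC', ?_, ?_⟩
  · intro i
    rw [jlof]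
    exact (hclose i).trans hδ1
  · rw [hf']
    have e1 : ev π f (delta 1) = ev (π.comp (ret ι r)) f (delta 1) := (ev_ret π f r hr _).symm
    have hd : ‖ev (π.comp (ret ι r)) f (delta 1) -
        ev ((π'.comp jl).comp (sg.comp (ret ι r))) f (delta 1)‖ ≤ cost f * δ := by
      apply dist_ev TWDIST.t_WDIST _ _ δ (fun w g' => hS.comm (ret ι r w) g')
        (fun w g' => hS'.comm (jl ((sg.comp (ret ι r)) w)) g')
      intro z
      show ‖((π (ret ι r (FreeGroup.of z)) : Op G) -
        (π' (jl (sg (ret ι r (FreeGroup.of z)))) : Op G)) (delta 1)‖ ≤ δ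
      rcases z with i | k
      · rw [ret_inl, sgl, jlof, ← neg_sub, _root_.neg_apply, norm_neg]
        exact hclose i
      · rw [ret_inr]
        by_cases hk : k < r
        · rw [if_pos hk, sgr, ← neg_sub, _root_.neg_apply, norm_neg]
          exact (h4 k hk).le
        · rw [if_neg hk]
          simp only [map_one, sub_self, _root_.zero_apply, norm_zero]
          exact hδ0.le
    calc ‖ξ - ev ((π'.comp jl).comp (sg.comp (ret ι r))) f (delta 1)‖
        = ‖(ξ - ev π f (delta 1)) + (ev (π.comp (ret ι r)) f (delta 1) -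
          ev ((π'.comp jl).comp (sg.comp (ret ι r))) f (delta 1))‖ := by
          rw [← e1]; congr 1; abel
      _ ≤ ‖ξ - ev π f (delta 1)‖ + ‖ev (π.comp (ret ι r)) f (delta 1) -
          ev ((π'.comp jl).comp (sg.comp (ret ι r))) f (delta 1)‖ := norm_add_le _ _
      _ ≤ ε / 2 + ε / 2 := add_le_add hf.le (hd.trans hδ2)
      _ = ε := by ring

end

/-- a cyclic system with letters `ι` on `ℓ²(F(ι ⊕ ℕ))` -/
theorem exists_sys (ι : Type) [Countable ι] (a u : ι) (hau : a ≠ u) :
    ∃ σ : FreeGroup ι →* unitary (Op (FreeGroup (ι ⊕ ℕ))), Std σ ∧ Cyc σ := by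
  have : Countable (FreeGroup (ι ⊕ ℕ)) := Final.countable_freeGroup _
  exact lim_gen TSLIM.t_SLIM TWDIST.t_WDIST jl jl_injective (absorb a u hau)
    (TINIT.t_INIT (ι ⊕ ℕ))

end Pool.Agent.H146R2.FI
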