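import Mathlib
import Pool.Agent.H581R.FF.Abst
import Pool.Agent.H146R2.FI.Absorb

/-! `L(F_n)` and `L(F_∞)` are isomorphic for `n ≥ 2` by a unitary which maps `δ_1` to `δ_1`. -/

namespace Pool.Agent.H146R2.FI

open Pool.Agent.H581R.FF
open Pool.Agent.H667R2.FG (Ell permOp lam rho delta LG EltG tau)

/-- spatial isomorphism of group von Neumann algebras, `δ_1` is mapped to `δ_1` -/
def SpT (G G' : Type) [Group G] [Group G'] : Prop :=
  ∃ W : Ell G ≃ₗᵢ[ℂ] Ell G', W (delta 1) = delta 1 ∧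
    ∀ T : Op G, T ∈ LG G ↔ W.conjStarAlgEquiv T ∈ LG G'

theorem spT_refl (G : Type) [Group G] : SpT G G :=
  ⟨LinearIsometryEquiv.refl ℂ (Ell G), rfl, fun _ => Iff.rfl⟩

theorem spT_symm {G G' : Type} [Group G] [Group G'] (h : SpT G G') : SpT G' G := by
  obtain ⟨W, h1, hW⟩ := h
  refine ⟨W.symm, by rw [← h1, LinearIsometryEquiv.symm_apply_apply], fun T => ?_⟩
  rw [hW]
  have e : W.conjStarAlgEquiv (W.symm.conjStarAlgEquiv T) = T := by
    ext1 x
    simp
  rw [e]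

theorem spT_trans {G G' G'' : Type} [Group G] [Group G'] [Group G''] (h : SpT G G')
    (h' : SpT G' G'') : SpT G G'' := by
  obtain ⟨W, h1, hW⟩ := h
  obtain ⟨W', h1', hW'⟩ := h'
  refine ⟨W.trans W', ?_, fun T => ?_⟩
  · show W' (W (delta 1)) = delta 1
    rw [h1, h1']
  · rw [hW, hW']
    rfl

theorem spT_cong {G G' : Type} [Group G] [Group G'] (e : G ≃* G') : SpT G G' := by
  classical
  refine ⟨TCONG.We e.toEquiv, ?_, ?_⟩
  · ext h
    rw [TCONG.We_apply, Pool.Agent.H667R2.FG.delta_apply, Pool.Agent.H667R2.FG.delta_apply]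
    have h1 : e.toEquiv.symm h = 1 ↔ h = 1 := by
      rw [Equiv.symm_apply_eq]
      show h = e 1 ↔ h = 1
      rw [map_one]
    by_cases hh : h = 1
    · rw [if_pos hh, if_pos (h1.2 hh)]
    · rw [if_neg hh, if_neg (fun h2 => hh (h1.1 h2))]
  · set Φ := (TCONG.We e.toEquiv).conjStarAlgEquiv with hΦ
    have h0 : ∀ a : Op G, a ∈ Set.range (lam (G := G)) ↔ Φ a ∈ Set.range (lam (G := G')) := by
      intro a
      constructor
      · rintro ⟨g, rfl⟩
        exact ⟨e g, (TCONG.conj_lam e g).symm⟩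
      · rintro ⟨g', hg'⟩
        refine ⟨e.symm g', ?_⟩
        apply (EquivLike.injective Φ : Function.Injective (Φ : Op G → Op G'))
        rw [hΦ, TCONG.conj_lam, ← hΦ, ← hg']
        simp
    have h1 := fun a => TCONG.cent_iff Φ h0 a
    exact fun a => TCONG.cent_iff Φ (S := (StarSubalgebra.centralizer ℂ (Set.range (lam (G := G))) :
        Set (Op G))) (T := (StarSubalgebra.centralizer ℂ (Set.range (lam (G := G'))) :
        Set (Op G'))) h1 a

/-- a cyclic system gives a unitary which conjugates the von Neumann algebras -/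
theorem spT_of_sys (κ G : Type) [Group G] (σ : FreeGroup κ →* unitary (Op G)) (hs : Std σ)
    (hc : Cyc σ) : SpT (FreeGroup κ) G := by
  let W := (TSPAT.hb σ hs hc).repr
  refine ⟨W.symm, ?_, ?_⟩
  · rw [LinearIsometryEquiv.symm_apply_eq]
    have h1 : (delta 1 : Ell G) = TSPAT.hb σ hs hc 1 := by
      rw [TSPAT.hb_apply, map_one]
      rfl
    rw [h1]
    have h2 := Abst.repr_delta (TSPAT.hb σ hs hc) 1
    exact h2.symm
  · intro T
    let φ : Op G ≃* Op (FreeGroup κ) :=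
      { toFun := W.conjStarAlgEquiv
        invFun := W.conjStarAlgEquiv.symm
        left_inv := W.conjStarAlgEquiv.symm_apply_apply
        right_inv := W.conjStarAlgEquiv.apply_symm_apply
        map_mul' := fun x y => map_mul W.conjStarAlgEquiv x y }
    have h0 : φ '' (Set.range fun w => (σ w : Op G)) = Set.range (lam (G := FreeGroup κ)) := by
      rw [← Set.range_comp]
      congr 1
      funext g
      exact TSPAT.phi_lam σ hs hc g
    have h1 := TSPAT.image_cent φ _ _ h0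
    have h2 := TSPAT.mem_cent φ _ _ h1 (W.conjStarAlgEquiv.symm T)
    rw [TSPAT.cent_eq σ hs hc] at h2
    have e1 : φ (W.conjStarAlgEquiv.symm T) = T := W.conjStarAlgEquiv.apply_symm_apply T
    rw [e1] at h2
    have e3 : W.symm.conjStarAlgEquiv T = W.conjStarAlgEquiv.symm T := rfl
    have e4 : T ∈ LG (FreeGroup κ) ↔
        T ∈ ((LG (FreeGroup κ)).toStarSubalgebra : Set (Op (FreeGroup κ))) := Iff.rfl
    have e5 : W.symm.conjStarAlgEquiv T ∈ LG G ↔
        W.symm.conjStarAlgEquiv T ∈ ((LG G).toStarSubalgebra : Set (Op G)) := Iff.rfl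
    rw [e4, e5, TSPAT.LG_coe, TSPAT.LG_coe, e3]
    exact h2

/-- `L(F_n)` and `L(F_∞)`, `n ≥ 2` -/
theorem spT_inf (n : ℕ) (hn : 2 ≤ n) : SpT (FreeGroup (Fin n)) (FreeGroup ℕ) := by
  obtain ⟨a, u, hau⟩ : ∃ a u : Fin n, a ≠ u := by
    refine ⟨⟨0, by omega⟩, ⟨1, by omega⟩, ?_⟩
    simp [Fin.ext_iff]
  obtain ⟨σ, hσ, hσc⟩ := exists_sys (Fin n) a u hau
  have h1 := spT_of_sys (Fin n) (FreeGroup (Fin n ⊕ ℕ)) σ hσ hσc
  have : Infinite (Fin n ⊕ ℕ) := Sum.infinite_of_right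
  obtain ⟨e⟩ := nonempty_equiv_of_countable (α := Fin n ⊕ ℕ) (β := ℕ)
  exact spT_trans h1 (spT_cong (FreeGroup.freeGroupCongr e))

/-- transfer to abstract Hilbert spaces -/
theorem transferT {Γ Γ' : Type} [Group Γ] [Group Γ']
    {H K : Type} [NormedAddCommGroup H] [InnerProductSpace ℂ H] [CompleteSpace H]
    [NormedAddCommGroup K] [InnerProductSpace ℂ K] [CompleteSpace K]
    (h : SpT Γ Γ') (δ : HilbertBasis Γ ℂ H) (δ' : HilbertBasis Γ' ℂ K) :
    ∃ W : H ≃ₗᵢ[ℂ] K, W (δ 1) = δ' 1 ∧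
      ∀ T : H →L[ℂ] H, T ∈ Abst.LL δ ↔ W.conjStarAlgEquiv T ∈ Abst.LL δ' := by
  obtain ⟨W, h1, hW⟩ := h
  refine ⟨(δ.repr.trans W).trans δ'.repr.symm, ?_, fun T => ?_⟩
  · show δ'.repr.symm (W (δ.repr (δ 1))) = δ' 1
    rw [Abst.repr_delta, h1, ← Abst.repr_delta δ' 1, LinearIsometryEquiv.symm_apply_apply]
  · rw [Abst.LL_iff, Abst.LL_iff, hW]
    have e : δ'.repr.conjStarAlgEquiv
        (((δ.repr.trans W).trans δ'.repr.symm).conjStarAlgEquiv T) =
        W.conjStarAlgEquiv (δ.repr.conjStarAlgEquiv T) := by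
      ext1 x
      simp
    rw [e]

end Pool.Agent.H146R2.FI
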